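import Pool.Agent.H578R2.ANN.Vtx

/-!
# Annihilation: abstract positions and positions on the board
-/

namespace Pool.Agent.NPC.ANN

open Pool.Agent.H820R2.SS

theorem place_reg (s : St) (j : ℕ) (y : Y) : place s (.reg j y) =
    if s.1 = some (.reg j y) then some 0 else if s.2 j = some y then some 1 else none := rfl

theorem place_of {s : St} {v : V} (h : s.1 ≠ some v) (h2 : ∀ j y, v = .reg j y → s.2 j ≠ some y) :
    place s v = none := by
  unfold place
  rw [if_neg h]
  cases v with
  | reg j y => exact if_neg (h2 j y rfl)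
  | _ => rfl

theorem place_eq_zero {s : St} {v : V} (h : s.1 = some v) : place s v = some 0 := by
  unfold place
  rw [if_pos h]

theorem place_cases {s : St} {v : V} {i : ℕ} (h : place s v = some i) :
    (i = 0 ∧ s.1 = some v) ∨ (i = 1 ∧ s.1 ≠ some v ∧ ∃ j y, v = .reg j y ∧ s.2 j = some y) := by
  by_cases h1 : s.1 = some v
  · left
    rw [place_eq_zero h1] at h
    exact ⟨(Option.some.inj h).symm, h1⟩
  · right
    by_cases h2 : ∀ j y, v = .reg j y → s.2 j ≠ some y
    · rw [place_of h1 h2] at h
      exact absurd h (by simp)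
    · push Not at h2
      obtain ⟨j, y, rfl, h3⟩ := h2
      rw [place_reg, if_neg h1, if_pos h3] at h
      exact ⟨(Option.some.inj h).symm, h1, j, y, rfl, h3⟩

/-- other vertices -/
theorem place_congr {s s' : St} {w : V} (h : s.1 = some w ↔ s'.1 = some w)
    (h2 : ∀ j y, w = .reg j y → (s.2 j = some y ↔ s'.2 j = some y)) : place s w = place s' w := by
  unfold place
  simp only [h]
  cases w with
  | reg j y => simp only [h2 j y rfl]
  | _ => rfl

theorem eq_ctl {v v' : V} {ρ : ℕ → Option Y} (hne : v ≠ v')
    (hi : ∀ j y, v = .reg j y → ρ j ≠ some y) (hf : ∀ j y, v' = .reg j y → ρ j ≠ some y) :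
    place (some v', ρ) = Function.update (Function.update (place (some v, ρ)) v none) v'
      (if place (some v, ρ) v' = none then some 0 else none) := by
  have h1 : place (some v, ρ) v' = none :=
    place_of (s := (some v, ρ)) (fun h => hne (Option.some.inj h)) hf
  rw [if_pos h1]
  funext w
  simp only [Function.update_apply]
  by_cases hw : w = v'
  · rw [if_pos hw, hw]
    exact place_eq_zero rfl
  · rw [if_neg hw]
    by_cases hw2 : w = v
    · rw [if_pos hw2, hw2]
      refine place_of (fun h => hne (Option.some.inj h).symm) hi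
    · rw [if_neg hw2]
      refine place_congr ?_ (fun j y _ => Iff.rfl)
      simp only [Option.some.injEq]
      exact ⟨fun h => absurd h.symm hw, fun h => absurd h.symm hw2⟩

theorem eq_cap {v : V} {j : ℕ} {y : Y} {ρ : ℕ → Option Y} (hne : v ≠ .reg j y)
    (hi : ∀ j y, v = .reg j y → ρ j ≠ some y) (ho : ρ j = some y) :
    place (none, Function.update ρ j none) =
      Function.update (Function.update (place (some v, ρ)) v none) (.reg j y)
      (if place (some v, ρ) (.reg j y) = none then some 0 else none) := by
  have h1 : place (some v, ρ) (.reg j y) = some 1 := by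
    rw [place_reg, if_neg (fun h => hne (Option.some.inj h)), if_pos ho]
  rw [h1, if_neg (by simp)]
  funext w
  simp only [Function.update_apply]
  by_cases hw : w = .reg j y
  · rw [if_pos hw, hw]
    refine place_of (by simp) (fun j' y' h => ?_)
    obtain ⟨rfl, rfl⟩ := V.reg.inj h
    simp
  · rw [if_neg hw]
    by_cases hw2 : w = v
    · rw [if_pos hw2, hw2]
      refine place_of (by simp) (fun j' y' h => ?_)
      simp only [Function.update_apply]
      split_ifs
      · simp
      · exact hi j' y' h
    · rw [if_neg hw2]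
      refine place_congr ?_ (fun j' y' h => ?_)
      · simp only [Option.some.injEq, reduceCtorEq, false_iff]
        exact fun h => hw2 h.symm
      · simp only [Function.update_apply]
        split_ifs with h3
        · subst h3
          rw [ho]
          simp only [Option.some.injEq, reduceCtorEq, false_iff]
          rintro rfl
          exact hw h
        · exact Iff.rfl

theorem eq_rg {c : Option V} {j : ℕ} {y y' : Y} {ρ : ℕ → Option Y} (hne : y ≠ y')
    (ho : ρ j = some y) (hc : c ≠ some (.reg j y')) (hc2 : c ≠ some (.reg j y)) :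
    place (c, Function.update ρ j (some y')) =
      Function.update (Function.update (place (c, ρ)) (.reg j y) none) (.reg j y')
      (if place (c, ρ) (.reg j y') = none then some 1 else none) := by
  have h1 : place (c, ρ) (.reg j y') = none := by
    rw [place_reg, if_neg hc, if_neg]
    show ¬ ρ j = some y'
    rw [ho]
    exact fun h => hne (Option.some.inj h)
  rw [if_pos h1]
  funext w
  simp only [Function.update_apply]
  by_cases hw : w = .reg j y'
  · rw [if_pos hw, hw, place_reg, if_neg hc, if_pos (by simp)]
  · rw [if_neg hw]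
    by_cases hw2 : w = .reg j y
    · rw [if_pos hw2, hw2, place_reg, if_neg hc2, if_neg]
      simp only [Function.update_apply, if_pos]
      exact fun h => hne (Option.some.inj h).symm
    · rw [if_neg hw2]
      refine place_congr Iff.rfl (fun j' y'' h => ?_)
      simp only [Function.update_apply]
      split_ifs with h3
      · subst h3
        rw [ho]
        simp only [Option.some.injEq]
        exact ⟨fun h4 => absurd (by rw [h, h4]) hw, fun h4 => absurd (by rw [h, h4]) hw2⟩
      · exact Iff.rfl

theorem eq_rcap {j : ℕ} {y y' : Y} {ρ : ℕ → Option Y} (ho : ρ j = some y) :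
    place (none, Function.update ρ j none) =
      Function.update (Function.update (place (some (.reg j y'), ρ)) (.reg j y) none) (.reg j y')
      (if place (some (.reg j y'), ρ) (.reg j y') = none then some 1 else none) := by
  have h1 : place (some (.reg j y'), ρ) (.reg j y') = some 0 := place_eq_zero rfl
  rw [h1, if_neg (by simp)]
  funext w
  simp only [Function.update_apply]
  by_cases hw : w = .reg j y'
  · rw [if_pos hw, hw]
    refine place_of (by simp) (fun j' y'' h => ?_)
    obtain ⟨rfl, rfl⟩ := V.reg.inj h
    simp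
  · rw [if_neg hw]
    by_cases hw2 : w = .reg j y
    · rw [if_pos hw2, hw2]
      refine place_of (by simp) (fun j' y'' h => ?_)
      obtain ⟨rfl, rfl⟩ := V.reg.inj h
      simp
    · rw [if_neg hw2]
      refine place_congr ?_ (fun j' y'' h => ?_)
      · simp only [Option.some.injEq, reduceCtorEq, false_iff]
        exact fun h => hw h.symm
      · simp only [Function.update_apply]
        split_ifs with h3
        · subst h3
          rw [ho]
          simp only [Option.some.injEq, reduceCtorEq, false_iff]
          rintro rfl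
          exact hw2 h
        · exact Iff.rfl

theorem EE_zero {M : ARM} {u v : V} : EE M 0 u v ↔
    ok M u = true ∧ ok M v = true ∧ cadj M u v = true := Iff.rfl

theorem EE_one {M : ARM} {u v : V} : EE M 1 u v ↔
    ok M u = true ∧ ok M v = true ∧ radjV u v = true := Iff.rfl

theorem place_step {M : ARM} {s s' : St} (hs : Inv s) (h : SStep M s s') :
    GMove (EE M) (place s) (place s') := by
  cases h with
  | @ctl v v' ρ h1 h2 h hf =>
    exact ⟨0, v, v', place_eq_zero rfl, ⟨h1, h2, h⟩,
      eq_ctl (cadj_ne h) (fun j y hv => hs j y (by rw [hv])) hf⟩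
  | @cap v j y ρ h1 h2 h ho =>
    exact ⟨0, v, .reg j y, place_eq_zero rfl, ⟨h1, by simpa [ok] using h2, h⟩,
      eq_cap (cadj_ne h) (fun j y hv => hs j y (by rw [hv])) ho⟩
  | @rg c j y y' ρ hj h ho hc =>
    have hc2 : c ≠ some (.reg j y) := fun h => hs j y h ho
    refine ⟨1, .reg j y, .reg j y', ?_, ⟨by simpa [ok] using hj, by simpa [ok] using hj, ?_⟩,
      eq_rg (radj_ne h) ho hc hc2⟩
    · rw [place_reg, if_neg hc2, if_pos ho]
    · simp [radjV, h]
  | @rcap j y y' ρ hj h ho =>
    refine ⟨1, .reg j y, .reg j y', ?_, ⟨by simpa [ok] using hj, by simpa [ok] using hj, ?_⟩,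
      eq_rcap ho⟩
    · rw [place_reg, if_neg, if_pos ho]
      intro h'
      have := (V.reg.inj (Option.some.inj h')).2
      exact radj_ne h this.symm
    · simp [radjV, h]

theorem place_move {M : ARM} {s : St} {Q : V → Option ℕ} (hs : Inv s)
    (h : GMove (EE M) (place s) Q) : ∃ s', SStep M s s' ∧ Q = place s' := by
  obtain ⟨i, u, v, h1, h2, h3⟩ := h
  obtain ⟨c, ρ⟩ := s
  rcases place_cases h1 with ⟨rfl, hc⟩ | ⟨rfl, hc, j, y, rfl, ho⟩
  · simp only at hc
    subst hc
    rw [EE_zero] at h2
    obtain ⟨h4, h5, h6⟩ := h2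
    have hi : ∀ j y, u = .reg j y → ρ j ≠ some y := fun j y hv => hs j y (by rw [hv])
    by_cases hf : ∀ j y, v = .reg j y → ρ j ≠ some y
    · exact ⟨_, .ctl h4 h5 h6 hf, by rw [h3, eq_ctl (cadj_ne h6) hi hf]⟩
    · push Not at hf
      obtain ⟨j, y, rfl, ho⟩ := hf
      exact ⟨_, .cap h4 (by simpa [ok] using h5) h6 ho, by rw [h3, eq_cap (cadj_ne h6) hi ho]⟩
  · simp only at hc ho
    rw [EE_one] at h2
    obtain ⟨h4, h5, h6⟩ := h2
    cases v with
    | reg j' y' =>
      simp only [radjV, Bool.and_eq_true, decide_eq_true_eq] at h6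
      obtain ⟨rfl, h6⟩ := h6
      by_cases hc' : c = some (.reg j y')
      · subst hc'
        exact ⟨_, .rcap (by simpa [ok] using h5) h6 ho, by rw [h3, eq_rcap ho]⟩
      · exact ⟨_, .rg (by simpa [ok] using h5) h6 ho hc', by rw [h3, eq_rg (radj_ne h6) ho hc' hc]⟩
    | _ => simp [radjV] at h6

/-- The outcomes of abstract positions. -/
theorem forces_place {M : ARM} {s : St} (hs : Inv s) {w : Bool} :
    Forces (SStep M) w s ↔ Forces (GMove (EE M)) w (place s) := by
  refine Forces.bisim_iff (R := fun s P => Inv s ∧ P = place s) ?_ ?_ ⟨hs, rfl⟩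
  · rintro a _ ⟨ha, rfl⟩ a' h
    exact ⟨_, place_step ha h, h.inv ha, rfl⟩
  · rintro a _ ⟨ha, rfl⟩ b' h
    obtain ⟨s', h1, rfl⟩ := place_move ha h
    exact ⟨s', h1, h1.inv ha, rfl⟩

end Pool.Agent.NPC.ANN
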