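import Mathlib

/-!
# Annihilation: the game, and general lemmas on loopy impartial games
-/

namespace Pool.Agent.NPC.ANN

/-- Outcomes of an impartial game under normal play (a player without a legal move loses), with
moves `mv`: `Forces mv true p` says that the player to move at `p` can force a win, and
`Forces mv false p` that the other player can.  (If neither holds, optimal play is a draw.) -/
inductive Forces {α : Type} (mv : α → α → Prop) : Bool → α → Prop
  | win {p q : α} (h : mv p q) (hq : Forces mv false q) : Forces mv true p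
  | lose {p : α} (h : ∀ q, mv p q → Forces mv true q) : Forces mv false p

/-- A move of Annihilation.  A position assigns to every vertex the type of the token on it, or
`none`; `E i u v` says that tokens of type `i` may use the edge `(u, v)`.  A token of type `i` is
slid from `u` to `v`; if `v` holds a token, both tokens are removed. -/
def GMove {V : Type} [DecidableEq V] (E : ℕ → V → V → Prop) (P Q : V → Option ℕ) : Prop :=
  ∃ (i : ℕ) (u v : V), P u = some i ∧ E i u v ∧
    Q = Function.update (Function.update P u none) v (if P v = none then some i else none)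

variable {α β : Type} {mv : α → α → Prop} {mv' : β → β → Prop}

theorem Forces.not_both {b : Bool} {p : α} (h : Forces mv b p) : ¬ Forces mv (!b) p := by
  induction h with
  | win h hq ih =>
    intro h'
    cases h' with
    | lose h2 => exact ih (h2 _ h)
  | lose h ih =>
    intro h'
    cases h' with
    | win h1 h2 => exact ih _ h1 h2

/-- A pair of sets of positions witnessing that no win can be forced. -/
theorem Forces.not_of {A B : α → Prop} (h1 : ∀ s, A s → ∀ s', mv s s' → Forces mv true s' ∨ B s')
    (h2 : ∀ s, B s → ∃ s', mv s s' ∧ A s') {b : Bool} {s : α} (h : Forces mv b s) :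
    (b = true → ¬ A s) ∧ (b = false → ¬ B s) := by
  induction h with
  | win h hq ih =>
    refine ⟨fun _ hA => ?_, fun h => absurd h (by decide)⟩
    rcases h1 _ hA _ h with h3 | h3
    · exact h3.not_both hq
    · exact ih.2 rfl h3
  | lose h ih =>
    refine ⟨fun h => absurd h (by decide), fun _ hB => ?_⟩
    obtain ⟨s', h3, h4⟩ := h2 _ hB
    exact (ih s' h3).1 rfl h4

theorem Forces.not_win_of {A B : α → Prop}
    (h1 : ∀ s, A s → ∀ s', mv s s' → Forces mv true s' ∨ B s')
    (h2 : ∀ s, B s → ∃ s', mv s s' ∧ A s') {s : α} (hs : A s) : ¬ Forces mv true s :=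
  fun h => (Forces.not_of h1 h2 h).1 rfl hs

theorem Forces.not_lose_of {A B : α → Prop}
    (h1 : ∀ s, A s → ∀ s', mv s s' → Forces mv true s' ∨ B s')
    (h2 : ∀ s, B s → ∃ s', mv s s' ∧ A s') {s : α} (hs : B s) : ¬ Forces mv false s :=
  fun h => (Forces.not_of h1 h2 h).2 rfl hs

/-- Bisimilar positions have the same outcome. -/
theorem Forces.bisim {R : α → β → Prop}
    (h1 : ∀ a b, R a b → ∀ a', mv a a' → ∃ b', mv' b b' ∧ R a' b')
    (h2 : ∀ a b, R a b → ∀ b', mv' b b' → ∃ a', mv a a' ∧ R a' b') {w : Bool} {a : α} {b : β}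
    (hab : R a b) (h : Forces mv w a) : Forces mv' w b := by
  induction h generalizing b with
  | win h hq ih =>
    obtain ⟨b', h3, h4⟩ := h1 _ _ hab _ h
    exact .win h3 (ih h4)
  | lose h ih =>
    refine .lose fun b' hb' => ?_
    obtain ⟨a', h3, h4⟩ := h2 _ _ hab _ hb'
    exact ih a' h3 h4

theorem Forces.bisim_iff {R : α → β → Prop}
    (h1 : ∀ a b, R a b → ∀ a', mv a a' → ∃ b', mv' b b' ∧ R a' b')
    (h2 : ∀ a b, R a b → ∀ b', mv' b b' → ∃ a', mv a a' ∧ R a' b') {w : Bool} {a : α} {b : β}
    (hab : R a b) : Forces mv w a ↔ Forces mv' w b :=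
  ⟨Forces.bisim h1 h2 hab, Forces.bisim (R := fun b a => R a b) (fun b a h b' hb' => h2 a b h b' hb')
    (fun b a h a' ha' => h1 a b h a' ha') hab⟩

end Pool.Agent.NPC.ANN
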