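import Pool.Agent.H578R2.ANN.Pure

/-!
# Annihilation: the simulation
-/

namespace Pool.Agent.NPC.ANN

open Pool.Agent.H820R2.SS Finset

variable {M : ARM}

/-- all registers hold values -/
def cf (M : ARM) (σ : ℕ → Bool) : ℕ → Option Y := fun j =>
  if j < M.1.length then some (.p (σ j)) else none

/-- register `j` is lifted -/
def lf (M : ARM) (σ : ℕ → Bool) (j : ℕ) : ℕ → Option Y := Function.update (cf M σ) j (some .q)

theorem cf_of {σ : ℕ → Bool} {j : ℕ} (hj : j < M.1.length) : cf M σ j = some (.p (σ j)) := by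
  rw [cf, if_pos hj]

theorem cf_eq {σ : ℕ → Bool} {j : ℕ} {y : Y} (h : cf M σ j = some y) : y = .p (σ j) := by
  unfold cf at h
  split_ifs at h
  exact (Option.some.inj h).symm

theorem nq_cf (σ : ℕ → Bool) : nq M.1.length (cf M σ) = 0 := by
  refine Finset.sum_eq_zero fun j hj => ?_
  rw [cf_of (mem_range.1 hj), isq]
  simp

theorem nq_lf {σ : ℕ → Bool} {j : ℕ} (hj : j < M.1.length) : nq M.1.length (lf M σ j) = 1 := by
  have h := sm_update isq hj (cf M σ) (some .q)
  rw [show sm isq M.1.length (cf M σ) = 0 from nq_cf σ, cf_of hj] at h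
  show sm isq M.1.length (Function.update (cf M σ) j (some .q)) = 1
  simpa [isq] using h

theorem lf_self {σ : ℕ → Bool} {j : ℕ} : lf M σ j j = some .q := by simp [lf]

theorem nq_t {σ : ℕ → Bool} {j : ℕ} (hj : j < M.1.length) :
    nq M.1.length (Function.update (lf M σ j) j (some .t)) = 0 := by
  have h := sm_update isq hj (lf M σ j) (some .t)
  rw [show sm isq M.1.length (lf M σ j) = 1 from nq_lf hj, lf_self] at h
  show sm isq M.1.length (Function.update (lf M σ j) j (some .t)) = 0
  simpa [isq] using h

theorem lf_ne {σ : ℕ → Bool} {j i : ℕ} (h : i ≠ j) : lf M σ j i = cf M σ i := by simp [lf, h]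

theorem lf_set {σ : ℕ → Bool} {j : ℕ} (hj : j < M.1.length) (b : Bool) :
    Function.update (lf M σ j) j (some (.p b)) = cf M (Function.update σ j b) := by
  funext i
  simp only [lf, Function.update_apply, cf]
  split_ifs with h1 h2 h3 <;> simp_all

/-- control vertices -/
def ctrl : V → Bool
  | .e0 => false
  | .e1 => false
  | .reg _ _ => false
  | _ => true

theorem step_cf {v : V} {σ : ℕ → Bool} {s' : St} (hv : ctrl v = true) (hk : ok M v = true)
    (hun : ∀ j y, j < M.1.length → cadj M v (.reg j y) = true → cf M σ j ≠ some y)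
    (h : SStep M (some v, cf M σ) s') : Forces (SStep M) true s' ∨
      (∃ v', ctrl v' = true ∧ ok M v' = true ∧ cadj M v v' = true ∧ s' = (some v', cf M σ)) ∨
      ∃ j, j < M.1.length ∧ s' = (some v, lf M σ j) := by
  cases h with
  | @ctl _ v' _ h1 h2 h hf =>
    by_cases hc : ctrl v' = true
    · exact Or.inr (Or.inl ⟨v', hc, h2, h, rfl⟩)
    · left
      cases v' with
      | e0 => cases v <;> simp [cadj, ctrl] at h hv
      | e1 =>
        refine pure_win (Or.inr (Or.inr rfl)) ?_
        rw [nq_cf]
        simp [ce]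
      | reg j y => exact win_reg (by simpa [ok] using h2)
      | _ => simp [ctrl] at hc
  | @cap _ j y _ h1 h2 h ho => exact absurd ho (hun j y h2 h)
  | @rg _ j y y' _ hj h ho hc =>
    right; right
    have hy := cf_eq ho
    subst hy
    have hy' : y' = .q := by cases y' <;> simp_all [radj]
    subst hy'
    exact ⟨j, hj, rfl⟩
  | rcap hj h ho => simp [ctrl] at hv

theorem step_plain {v : V} {σ : ℕ → Bool} {s' : St} (hv : ctrl v = true) (hk : ok M v = true)
    (he : cadj M v .e1 = true)
    (hun : ∀ j y, j < M.1.length → cadj M v (.reg j y) = true → cf M σ j ≠ some y)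
    (h : SStep M (some v, cf M σ) s') : Forces (SStep M) true s' ∨
      (∃ v', ctrl v' = true ∧ ok M v' = true ∧ cadj M v v' = true ∧ s' = (some v', cf M σ)) := by
  rcases step_cf hv hk hun h with h1 | h1 | ⟨j, hj, rfl⟩
  · exact Or.inl h1
  · exact Or.inr h1
  · exact Or.inl (win_e1 hk he (by rw [nq_lf hj]))

theorem step_lf {v : V} {σ : ℕ → Bool} {j : ℕ} {s' : St} (hv : ctrl v = true)
    (hk : ok M v = true) (hj : j < M.1.length)
    (hun : ∀ j' y, j' < M.1.length → cadj M v (.reg j' y) = true → lf M σ j j' ≠ some y)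
    (he : cadj M v .e1 = false) (ht : cadj M v (.reg j .t) = true)
    (h : SStep M (some v, lf M σ j) s') : Forces (SStep M) true s' ∨
      (∃ v', ctrl v' = true ∧ ok M v' = true ∧ cadj M v v' = true ∧ s' = (some v', lf M σ j)) ∨
      (∃ b, s' = (some v, cf M (Function.update σ j b))) ∨
      ∃ j', j' < M.1.length ∧ j' ≠ j ∧ s' = (some v, Function.update (lf M σ j) j' (some .q)) := by
  cases h with
  | @ctl _ v' _ h1 h2 h hf =>
    by_cases hc : ctrl v' = true
    · exact Or.inr (Or.inl ⟨v', hc, h2, h, rfl⟩)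
    · left
      cases v' with
      | e0 => cases v <;> simp [cadj, ctrl] at h hv
      | e1 => rw [he] at h; exact absurd h (by decide)
      | reg j y => exact win_reg (by simpa [ok] using h2)
      | _ => simp [ctrl] at hc
  | @cap _ j' y _ h1 h2 h ho => exact absurd ho (hun j' y h2 h)
  | @rg _ j' y y' _ hj' h ho hc =>
    by_cases hjj : j' = j
    · subst hjj
      rw [lf_self] at ho
      have hy := Option.some.inj ho
      subst hy
      cases y' with
      | p b => exact Or.inr (Or.inr (Or.inl ⟨b, by rw [lf_set hj]⟩))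
      | q => simp [radj] at h
      | t =>
        left
        refine win_cap hk hj ht (Function.update_self ..) ?_
        rw [nq_t hj]
        simp [isq]
    · right; right; right
      rw [lf_ne hjj] at ho
      have hy := cf_eq ho
      subst hy
      have hy' : y' = .q := by cases y' <;> simp_all [radj]
      subst hy'
      exact ⟨j', hj', hjj, rfl⟩
  | rcap hj h ho => simp [ctrl] at hv

/-! ### Vertices of an update -/

theorem mem_of_getD {α : Type} {l : List α} {k : ℕ} {d : α} (h : k < l.length) :
    l.getD k d ∈ l := by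
  rw [List.getD_eq_getElem _ _ h]
  exact List.getElem_mem h

theorem ok3_iff {r i k : ℕ} : ok3 M r i k = true ↔ r < M.2.2.length ∧
    i < (rl M r).2.2.length ∧ k ≤ (us M r i).length := by
  simp [ok3]

theorem rl_mem {r : ℕ} (h : r < M.2.2.length) : rl M r ∈ M.2.2 := mem_of_getD h

theorem pm_mem {r i : ℕ} (h : i < (rl M r).2.2.length) : pm M r i ∈ (rl M r).2.2 := mem_of_getD h

theorem up_lt (hM : ARMPr M) {r i k : ℕ} (h : ok3 M r i k = true) (h0 : 0 < k) :
    (up M r i k).1 < M.1.length := by
  obtain ⟨h1, h2, h3⟩ := ok3_iff.1 h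
  exact (hM _ (rl_mem h1)).2 _ (pm_mem h2) _ (mem_of_getD (by unfold us at h3; omega))

theorem upd_take {r i k : ℕ} (h : ok3 M r i k = true) (h0 : 0 < k) (σ : ℕ → Bool) :
    upd σ ((us M r i).take k) =
      upd (Function.update σ (up M r i k).1 (up M r i k).2) ((us M r i).take (k - 1)) := by
  obtain ⟨-, -, h3⟩ := ok3_iff.1 h
  have h4 : (us M r i).take k = (us M r i).take (k - 1) ++ [up M r i k] := by
    obtain ⟨k', rfl⟩ : ∃ k', k = k' + 1 := ⟨k - 1, by omega⟩
    rw [List.take_add_one, List.getElem?_eq_getElem (by omega)]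
    simp only [up, Nat.add_sub_cancel, Option.toList_some]
    rw [List.getD_eq_getElem _ _ (by omega)]
  rw [h4]
  funext j
  simp only [upd, List.lookup_append, Function.update_apply]
  cases h5 : List.lookup j ((us M r i).take (k - 1)) with
  | some b => simp
  | none =>
    simp only [Option.none_or, Option.getD_none]
    obtain ⟨a, b⟩ := up M r i k
    by_cases h6 : j = a
    · subst h6
      simp
    · have : (j == a) = false := by simpa using h6
      simp [List.lookup, this, h6]

theorem upd_nil (σ : ℕ → Bool) : upd σ [] = σ := by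
  funext j
  simp [upd]

/-- The update number `k` overrides the value of its register. -/
theorem upd_take_update {r i k : ℕ} (h : ok3 M r i k = true) (h0 : 0 < k) (σ : ℕ → Bool)
    (b : Bool) : upd (Function.update σ (up M r i k).1 b) ((us M r i).take k) =
      upd σ ((us M r i).take k) := by
  rw [upd_take h h0, upd_take h h0, Function.update_idem]

section US

variable {r i k : ℕ}

theorem ctrl_U {v' : V} (hc : ctrl v' = true) (h : cadj M (.U r i k) v' = true) :
    v' = .S r i k := by
  cases v' <;> simp_all [cadj, ctrl]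

theorem ctrl_S {v' : V} (hc : ctrl v' = true) (h : cadj M (.S r i k) v' = true) :
    v' = .Z r i k := by
  cases v' <;> simp_all [cadj, ctrl]

theorem ctrl_Z {v' : V} (hc : ctrl v' = true) (h : cadj M (.Z r i k) v' = true) :
    ∃ k', k = k' + 1 ∧ v' = .X r i k' := by
  cases v' <;> simp_all [cadj, ctrl]

theorem ctrl_R {v' : V} (hc : ctrl v' = true) (h : cadj M (.R r) v' = true) :
    ∃ i, v' = .X r i (us M r i).length := by
  cases v' <;> simp_all [cadj, ctrl]

theorem reg_U {j : ℕ} {y : Y} (h : cadj M (.U r i k) (.reg j y) = true) :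
    y = .t ∨ (y = .q ∧ j ≠ (up M r i k).1) := by
  cases y <;> simp_all [cadj]

theorem reg_S {j : ℕ} {y : Y} (h : cadj M (.S r i k) (.reg j y) = true) :
    y = .t ∨ (y = .q ∧ j ≠ (up M r i k).1) ∨
      (j = (up M r i k).1 ∧ y = .p (!(up M r i k).2)) := by
  cases y <;> simp_all [cadj]

theorem reg_R {j : ℕ} {y : Y} (h : cadj M (.R r) (.reg j y) = true) :
    ∃ b, y = .p b ∧ (j, !b) ∈ (rl M r).2.1 := by
  cases y <;> simp_all [cadj]

end US

end Pool.Agent.NPC.ANN
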