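import Pool.Agent.H578R2.ANN.Enc
import Pool.Agent.H578R2.ARM.Main
import Pool.Agent.H820R2.SS.Exp

/-!
# Annihilation: the instance is computed in polynomial time
-/

namespace Pool.Agent.NPC.ANN

open Pool.Agent.H820R2.SS

variable {α : Type} [TEnc α]

@[fun_prop]
theorem poly_rl {M : α → ARM} {r : α → ℕ} (hM : Poly M) (hr : Poly r) :
    Poly (fun x => rl (M x) (r x)) := by
  unfold rl dR
  fun_prop

@[fun_prop]
theorem poly_pm {M : α → ARM} {r i : α → ℕ} (hM : Poly M) (hr : Poly r) (hi : Poly i) :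
    Poly (fun x => pm (M x) (r x) (i x)) := by
  unfold pm
  fun_prop

@[fun_prop]
theorem poly_us {M : α → ARM} {r i : α → ℕ} (hM : Poly M) (hr : Poly r) (hi : Poly i) :
    Poly (fun x => us (M x) (r x) (i x)) := by
  unfold us
  fun_prop

@[fun_prop]
theorem poly_up {M : α → ARM} {r i k : α → ℕ} (hM : Poly M) (hr : Poly r) (hi : Poly i)
    (hk : Poly k) : Poly (fun x => up (M x) (r x) (i x) (k x)) := by
  unfold up
  fun_prop

@[fun_prop]
theorem poly_ok3 {M : α → ARM} {r i k : α → ℕ} (hM : Poly M) (hr : Poly r) (hi : Poly i)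
    (hk : Poly k) : Poly (fun x => ok3 (M x) (r x) (i x) (k x)) := by
  unfold ok3
  fun_prop

theorem poly_okL {M : α → ARM} {z : α → Lb} (hM : Poly M) (hz : Poly z) :
    Poly (fun x => okL (M x) (z x)) := by
  unfold okL
  fun_prop

theorem poly_cL {M : α → ARM} {z z' : α → Lb} (hM : Poly M) (hz : Poly z) (hz' : Poly z') :
    Poly (fun x => cL (M x) (z x) (z' x)) := by
  unfold cL
  fun_prop

theorem poly_rL {z z' : α → Lb} (hz : Poly z) (hz' : Poly z') :
    Poly (fun x => rL (z x) (z' x)) := by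
  unfold rL
  fun_prop

theorem poly_bl : Poly (fun M : ARM => bl M) := by
  unfold bl
  fun_prop

theorem uPoly_Bd : UPoly (fun M : ARM => Bd M) := UPoly.length poly_bl

theorem poly_vs : Poly (fun M : ARM => vs M) := by
  have h1 : Poly (fun M : ARM => List.range (Bd M)) := uPoly_Bd.range
  have h2 : Poly (fun M : ARM => ((List.range 14) ×ˢ ((List.range (Bd M)) ×ˢ
      ((List.range (Bd M)) ×ˢ (List.range (Bd M)))) : List Lb)) := by
    fun_prop
  unfold vs
  refine Poly.filter h2 ?_
  exact poly_okL (M := fun p : ARM × Lb => p.1) (z := fun p => p.2) (by fun_prop) (by fun_prop)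

theorem poly_edg {t : ARM → Lb → Lb → Bool}
    (ht : Poly (fun p : ARM × (Lb × Lb) => t p.1 p.2.1 p.2.2)) :
    Poly (fun M : ARM => edg (vs M) (t M)) := by
  have h0 := poly_vs
  have h1 : Poly (fun M : ARM => List.range (vs M).length) := (UPoly.length poly_vs).range
  have h2 : Poly (fun M : ARM => ((List.range (vs M).length) ×ˢ (List.range (vs M).length) :
      List (ℕ × ℕ))) := by
    fun_prop
  unfold edg
  refine Poly.filter h2 ?_
  have h3 : Poly (fun p : ARM × (ℕ × ℕ) => vs p.1) := h0.comp (Poly.fst Poly.id)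
  exact ht.comp (f := fun p : ARM × (ℕ × ℕ) => (p.1, ((vs p.1).getD p.2.1 (0, 0, 0, 0),
    (vs p.1).getD p.2.2 (0, 0, 0, 0)))) (by fun_prop)

theorem poly_inst (c : ℕ) : Poly (fun M : ARM => inst c M) := by
  have h0 := poly_vs
  have h1 : Poly (fun M : ARM => edg (vs M) (cL M)) := by
    refine poly_edg (t := fun M => cL M) ?_
    exact poly_cL (M := fun p : ARM × (Lb × Lb) => p.1) (z := fun p => p.2.1)
      (z' := fun p => p.2.2) (by fun_prop) (by fun_prop) (by fun_prop)
  have h2 : Poly (fun M : ARM => edg (vs M) rL) := by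
    refine poly_edg (t := fun _ => rL) ?_
    exact poly_rL (z := fun p : ARM × (Lb × Lb) => p.2.1)
      (z' := fun p => p.2.2) (by fun_prop) (by fun_prop)
  unfold inst
  fun_prop

/-- Exponential-time hardness, for the three outcomes. -/
theorem hard_win {S : Set (List Bool)}
    (hS : ∀ A : Annih, IsPosition A → A.2.1.length = 2 → (bits A ∈ S ↔ MoverWins A))
    {L : Set (List Bool)} (hL : InEXPTIME L) : Reduces L S := by
  obtain ⟨f, h1, h2, h3⟩ := ARM578.exptime_arm (L := L) hL
  refine ⟨fun x => bits (inst 0 (f x)), PC.toPolyTime_bits (poly_inst 0) f h1, fun x => ?_⟩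
  rw [hS _ (inst_isPosition _ _) rfl, MoverWins, inst_forces (v0 := .G) rfl rfl rfl]
  rw [h3 x, ARMAcc]
  exact (win_G (h2 x) _).symm

theorem hard_lose {S : Set (List Bool)}
    (hS : ∀ A : Annih, IsPosition A → A.2.1.length = 2 → (bits A ∈ S ↔ OtherWins A))
    {L : Set (List Bool)} (hL : InEXPTIME L) : Reduces L S := by
  obtain ⟨f, h1, h2, h3⟩ := ARM578.exptime_arm (L := L) hL
  refine ⟨fun x => bits (inst 1 (f x)), PC.toPolyTime_bits (poly_inst 1) f h1, fun x => ?_⟩
  rw [hS _ (inst_isPosition _ _) rfl, OtherWins, inst_forces (v0 := .I) rfl rfl rfl]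
  rw [h3 x, ARMAcc]
  exact (lose_I (h2 x) _).symm

theorem hard_draw {S : Set (List Bool)}
    (hS : ∀ A : Annih, IsPosition A → A.2.1.length = 2 → (bits A ∈ S ↔ Drawn A))
    {L : Set (List Bool)} (hL : InEXPTIME L) : Reduces L S := by
  obtain ⟨f, h1, h2, h3⟩ := ARM578.exptime_arm_compl (L := L) hL
  refine ⟨fun x => bits (inst 0 (f x)), PC.toPolyTime_bits (poly_inst 0) f h1, fun x => ?_⟩
  rw [hS _ (inst_isPosition _ _) rfl, Drawn, MoverWins, OtherWins,
    inst_forces (v0 := .G) rfl rfl rfl, inst_forces (v0 := .G) rfl rfl rfl]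
  have h4 := h3 x
  rw [ARMAcc, ← win_G (h2 x)] at h4
  rw [← not_iff_not, h4]
  constructor
  · intro h h'
    exact h'.1 h
  · intro h
    by_contra h'
    exact h ⟨h', not_lose_G _⟩

end Pool.Agent.NPC.ANN
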