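import Pool.Agent.H578R2.ANN.Bis

/-!
# Annihilation: parity
-/

namespace Pool.Agent.NPC.ANN

open Pool.Agent.H820R2.SS Finset

/-- lifted tokens -/
def isq (o : Option Y) : ℕ := if o = some .q then 1 else 0

/-- potential of a register token -/
def phi : Option Y → ℕ
  | some (.p _) => 1
  | some .q => 2
  | _ => 0

/-- sums over the registers -/
def sm (w : Option Y → ℕ) (n : ℕ) (ρ : ℕ → Option Y) : ℕ := ∑ j ∈ range n, w (ρ j)

theorem sm_update (w : Option Y → ℕ) {n j : ℕ} (hj : j < n) (ρ : ℕ → Option Y) (y : Option Y) :
    sm w n (Function.update ρ j y) + w (ρ j) = sm w n ρ + w y := by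
  unfold sm
  have h1 := Finset.sum_erase_add (range n) (fun i => w (ρ i)) (mem_range.2 hj)
  have h2 := Finset.sum_erase_add (range n) (fun i => w (Function.update ρ j y i))
    (mem_range.2 hj)
  have h3 : ∑ i ∈ (range n).erase j, w (Function.update ρ j y i) =
      ∑ i ∈ (range n).erase j, w (ρ i) := by
    refine Finset.sum_congr rfl fun i hi => ?_
    rw [Function.update_of_ne (Finset.ne_of_mem_erase hi)]
  simp only [Function.update_self] at h2
  rw [← h1, ← h2, h3]
  ring

/-- number of lifted tokens -/
abbrev nq (n : ℕ) (ρ : ℕ → Option Y) : ℕ := sm isq n ρ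

/-- the value of the place of a control token which is out of play -/
def ce (c : Option V) : ℕ := if c = some .e1 then 1 else 0

/-- the control token is out of play -/
def pureC (c : Option V) : Prop := c = none ∨ c = some .e0 ∨ c = some .e1

variable {M : ARM}

theorem exists_q {n : ℕ} {ρ : ℕ → Option Y} (h : 0 < nq n ρ) : ∃ j < n, ρ j = some .q := by
  by_contra hno
  push Not at hno
  have : nq n ρ = 0 := by
    refine Finset.sum_eq_zero fun j hj => ?_
    rw [isq, if_neg (hno j (mem_range.1 hj))]
  omega

theorem pureC_ne {c : Option V} (hc : pureC c) (j : ℕ) (y : Y) : c ≠ some (.reg j y) := by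
  rcases hc with rfl | rfl | rfl <;> simp

/-- lowering a lifted token -/
theorem kill {c : Option V} {ρ : ℕ → Option Y} {j : ℕ} (hj : j < M.1.length)
    (ho : ρ j = some .q) (hc : c ≠ some (.reg j .t)) :
    SStep M (c, ρ) (c, Function.update ρ j (some .t)) ∧
    nq M.1.length (Function.update ρ j (some .t)) + 1 = nq M.1.length ρ ∧
    sm phi M.1.length (Function.update ρ j (some .t)) + 2 = sm phi M.1.length ρ := by
  refine ⟨.rg hj rfl ho hc, ?_, ?_⟩
  · have := sm_update isq hj ρ (some .t)
    rw [ho] at this
    simpa [isq] using this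
  · have := sm_update phi hj ρ (some .t)
    rw [ho] at this
    simpa [phi] using this

theorem reply {c : Option V} {ρ : ℕ → Option Y} (hc : pureC c)
    (ho : (nq M.1.length ρ + ce c) % 2 = 1) : ∃ s' : St, SStep M (c, ρ) s' ∧ pureC s'.1 ∧
      (nq M.1.length s'.2 + ce s'.1) % 2 = 0 ∧
      sm phi M.1.length s'.2 + ce s'.1 < sm phi M.1.length ρ + ce c := by
  by_cases hn : 0 < nq M.1.length ρ
  · obtain ⟨j, hj, hq⟩ := exists_q hn
    obtain ⟨h1, h2, h3⟩ := kill (M := M) (c := c) hj hq (pureC_ne hc _ _)
    refine ⟨_, h1, hc, ?_, ?_⟩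
    · simp only; omega
    · simp only; omega
  · have h1 : c = some .e1 := by
      by_contra h1
      rw [ce, if_neg h1] at ho
      omega
    subst h1
    refine ⟨(some .e0, ρ), .ctl rfl rfl rfl (fun j y h => by simp at h), Or.inr (Or.inl rfl), ?_, ?_⟩
    · simp only [ce] at ho ⊢
      simp at ho ⊢
      omega
    · simp [ce]

theorem pure_even : ∀ (N : ℕ) (c : Option V) (ρ : ℕ → Option Y), pureC c →
    sm phi M.1.length ρ + ce c ≤ N → (nq M.1.length ρ + ce c) % 2 = 0 →
    Forces (SStep M) false (c, ρ) := by
  intro N
  induction N using Nat.strong_induction_on with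
  | _ N ih =>
    intro c ρ hc hN he
    -- a reply after a decreasing move
    have key : ∀ (c' : Option V) (ρ' : ℕ → Option Y), pureC c' →
        (nq M.1.length ρ' + ce c') % 2 = 1 →
        sm phi M.1.length ρ' + ce c' ≤ sm phi M.1.length ρ + ce c →
        Forces (SStep M) true (c', ρ') := by
      intro c' ρ' hc' ho hle
      obtain ⟨s', h1, h2, h3, h4⟩ := reply hc' ho
      exact .win h1 (ih (N - 1) (by omega) _ _ h2 (by omega) h3)
    refine .lose fun s' hs' => ?_
    cases hs' with
    | @ctl v v' _ h1 h2 h hf =>
      rcases hc with hc | hc | hc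
      · simp at hc
      · rw [Option.some.inj hc] at h
        cases v' <;> simp [cadj] at h
      · have hv : v = .e1 := Option.some.inj hc
        subst hv
        have hv' : v' = .e0 := by cases v' <;> simp_all [cadj]
        subst hv'
        refine key _ _ (Or.inr (Or.inl rfl)) ?_ ?_
        · simp [ce] at he ⊢
          omega
        · simp [ce]
    | @cap v j y _ h1 h2 h ho =>
      rcases hc with hc | hc | hc
      · simp at hc
      · rw [Option.some.inj hc] at h
        simp [cadj] at h
      · rw [Option.some.inj hc] at h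
        simp [cadj] at h
    | @rg _ j y y' _ hj h ho hc' =>
      have hu := sm_update isq hj ρ (some y')
      have hp := sm_update phi hj ρ (some y')
      rw [ho] at hu hp
      have hne := pureC_ne hc
      cases y with
      | p b =>
        have hy' : y' = .q := by cases y' <;> simp_all [radj]
        subst hy'
        have h2 := kill (M := M) (c := c) (ρ := Function.update ρ j (some .q)) hj
          (Function.update_self ..) (hne _ _)
        obtain ⟨h3, h4, h5⟩ := h2
        simp only [phi, isq] at hp hu
        simp at hp hu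
        refine .win h3 (ih (N - 1) (by omega) _ _ hc (by omega) ?_)
        have : nq M.1.length (Function.update ρ j (some .q)) = nq M.1.length ρ + 1 := by
          simpa using hu
        omega
      | q =>
        have hy' : isq (some y') = 0 ∧ phi (some y') ≤ 1 := by
          cases y' <;> simp_all [radj, isq, phi]
        rw [hy'.1] at hu
        have hu' : nq M.1.length (Function.update ρ j (some y')) + 1 = nq M.1.length ρ := by
          simpa [isq] using hu
        have hp' : sm phi M.1.length (Function.update ρ j (some y')) + 2 =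
          sm phi M.1.length ρ + phi (some y') := hp
        have hy2 := hy'.2
        refine key _ _ hc ?_ ?_
        · omega
        · omega
      | t => cases y' <;> simp [radj] at h
    | @rcap j y y' _ hj h ho =>
      exact absurd rfl (pureC_ne hc _ _)

theorem pure_lose {c : Option V} {ρ : ℕ → Option Y} (hc : pureC c)
    (he : (nq M.1.length ρ + ce c) % 2 = 0) : Forces (SStep M) false (c, ρ) :=
  pure_even _ c ρ hc le_rfl he

theorem pure_win {c : Option V} {ρ : ℕ → Option Y} (hc : pureC c)
    (ho : (nq M.1.length ρ + ce c) % 2 = 1) : Forces (SStep M) true (c, ρ) := by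
  obtain ⟨s', h1, h2, h3, -⟩ := reply hc ho
  exact .win h1 (pure_lose h2 h3)

/-- winning by the parity vertex -/
theorem win_e1 {v : V} {ρ : ℕ → Option Y} (hv : ok M v = true) (h : cadj M v .e1 = true)
    (ho : nq M.1.length ρ % 2 = 1) : Forces (SStep M) true (some v, ρ) := by
  refine .win (.ctl hv rfl h (fun j y h => by simp at h)) (pure_lose (Or.inr (Or.inr rfl)) ?_)
  simp [ce]
  omega

/-- a failed check -/
theorem win_reg {j : ℕ} {y : Y} {ρ : ℕ → Option Y} (hj : j < M.1.length) :
    Forces (SStep M) true (some (.reg j y), ρ) := by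
  have hok : ok M (.reg j y) = true := by simpa [ok] using hj
  by_cases he : nq M.1.length ρ % 2 = 0
  · refine .win (.ctl (v' := .e0) hok rfl rfl (fun j y h => by simp at h))
      (pure_lose (Or.inr (Or.inl rfl)) ?_)
    simpa [ce] using he
  · exact win_e1 hok rfl (by omega)

/-- a successful check -/
theorem win_cap {v : V} {j : ℕ} {y : Y} {ρ : ℕ → Option Y} (hv : ok M v = true)
    (hj : j < M.1.length) (h : cadj M v (.reg j y) = true) (ho : ρ j = some y)
    (hp : (nq M.1.length ρ + isq (some y)) % 2 = 0) : Forces (SStep M) true (some v, ρ) := by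
  refine .win (.cap hv hj h ho) (pure_lose (Or.inl rfl) ?_)
  have hu := sm_update isq hj ρ none
  rw [ho] at hu
  simp only [isq, ce] at hu hp ⊢
  simp at hu hp ⊢
  have : nq M.1.length (Function.update ρ j none) + (if y = Y.q then 1 else 0) =
    nq M.1.length ρ := by simpa using hu
  omega

end Pool.Agent.NPC.ANN
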