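import Pool.Agent.H578R2.ANN.Main

/-!
# Annihilation: if the machine accepts, the first player wins
-/

namespace Pool.Agent.NPC.ANN

open Pool.Agent.H820R2.SS Finset

variable {M : ARM}

/-- abbreviation -/
abbrev N (M : ARM) (s : St) : Prop := Forces (SStep M) true s

/-- abbreviation -/
abbrev P (M : ARM) (s : St) : Prop := Forces (SStep M) false s

section upd

variable {r i k : ℕ}

theorem okU (h : ok3 M r i k = true) (h0 : 0 < k) : ok M (.U r i k) = true := by
  simp [ok, h, h0]

theorem okS (h : ok3 M r i k = true) (h0 : 0 < k) : ok M (.S r i k) = true := by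
  simp [ok, h, h0]

theorem okZ (h : ok3 M r i k = true) (h0 : 0 < k) : ok M (.Z r i k) = true := by
  simp [ok, h, h0]

theorem ok3_pred (h : ok3 M r i (k + 1) = true) : ok3 M r i k = true := by
  rw [ok3_iff] at h ⊢
  omega

/-- no check succeeds at `S` when the register is lifted -/
theorem unS (σ : ℕ → Bool) (j' : ℕ) (y : Y) (h : cadj M (.S r i k) (.reg j' y) = true) :
    lf M σ (up M r i k).1 j' ≠ some y := by
  intro h2
  rcases reg_S h with rfl | ⟨rfl, hne⟩ | ⟨rfl, rfl⟩
  · by_cases hj : j' = (up M r i k).1
    · subst hj
      rw [lf_self] at h2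
      simp at h2
    · rw [lf_ne hj] at h2
      have := cf_eq h2
      simp at this
  · rw [lf_ne hne] at h2
    have := cf_eq h2
    simp at this
  · rw [lf_self] at h2
    simp at h2

theorem unU (σ : ℕ → Bool) (j' : ℕ) (y : Y) (h : cadj M (.U r i k) (.reg j' y) = true) :
    lf M σ (up M r i k).1 j' ≠ some y := by
  intro h2
  rcases reg_U h with rfl | ⟨rfl, hne⟩
  · by_cases hj : j' = (up M r i k).1
    · subst hj
      rw [lf_self] at h2
      simp at h2
    · rw [lf_ne hj] at h2
      have := cf_eq h2
      simp at this
  · rw [lf_ne hne] at h2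
    have := cf_eq h2
    simp at this

theorem unU' (σ : ℕ → Bool) (j' : ℕ) (y : Y) (h : cadj M (.U r i k) (.reg j' y) = true) :
    cf M σ j' ≠ some y := by
  intro h2
  have := cf_eq h2
  subst this
  rcases reg_U h with h | ⟨h, _⟩ <;> simp at h

/-- the register is set to the wrong value -/
theorem wrong {σ : ℕ → Bool} (hM : ARMPr M) (h : ok3 M r i k = true) (h0 : 0 < k)
    (hne : σ (up M r i k).1 ≠ (up M r i k).2) : N M (some (.S r i k), cf M σ) := by
  have hj := up_lt hM h h0
  refine win_cap (j := (up M r i k).1) (y := .p (σ (up M r i k).1)) (okS h h0) hj ?_ (cf_of hj) ?_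
  · have : σ (up M r i k).1 = !(up M r i k).2 := by
      revert hne
      cases σ (up M r i k).1 <;> cases (up M r i k).2 <;> simp
    simp [cadj, this]
  · rw [nq_cf]
    simp [isq]

/-- two tokens away from their places, one of them dead: a lost position -/
theorem dead {σ : ℕ → Bool} {j' : ℕ} (hM : ARMPr M) (h : ok3 M r i k = true) (h0 : 0 < k)
    (hj' : j' < M.1.length) (hne : j' ≠ (up M r i k).1) :
    P M (some (.S r i k), Function.update (lf M σ (up M r i k).1) j' (some .t)) := by
  have hj := up_lt hM h h0
  set j := (up M r i k).1 with hjdef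
  set ρ := Function.update (lf M σ j) j' (some .t) with hρ
  have hρj : ρ j = some .q := by
    rw [hρ, Function.update_of_ne (Ne.symm hne), lf_self]
  have hρj' : ρ j' = some .t := Function.update_self ..
  have hρo : ∀ i', i' ≠ j → i' ≠ j' → ρ i' = cf M σ i' := by
    intro i' h1 h2
    rw [hρ, Function.update_of_ne h2, lf_ne h1]
  have hnq : nq M.1.length ρ = 1 := by
    have h1 := sm_update isq hj' (lf M σ j) (some .t)
    rw [show sm isq M.1.length (lf M σ j) = 1 from nq_lf hj, lf_ne hne, cf_of hj'] at h1
    show sm isq M.1.length (Function.update (lf M σ j) j' (some .t)) = 1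
    simpa [isq] using h1
  -- checking the dead token wins when the number of lifted tokens is even
  have hchk : ∀ ρ' : ℕ → Option Y, ρ' j' = some .t → nq M.1.length ρ' % 2 = 0 →
      N M (some (.S r i k), ρ') := by
    intro ρ' h1 h2
    exact win_cap (okS h h0) hj' (by simp [cadj]) h1 (by simpa [isq] using h2)
  refine .lose fun s' hs' => ?_
  cases hs' with
  | @ctl _ v' _ h1 h2 h3 hf =>
    by_cases hc : ctrl v' = true
    · have := ctrl_S hc h3
      subst this
      exact win_e1 h2 rfl (by rw [hnq])
    · cases v' with
      | reg j y => exact win_reg (by simpa [ok] using h2)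
      | e0 => simp [cadj] at h3
      | e1 => simp [cadj] at h3
      | _ => simp [ctrl] at hc
  | @cap _ j'' y _ h1 h2 h3 ho =>
    rcases reg_S h3 with rfl | ⟨rfl, hne2⟩ | ⟨rfl, rfl⟩
    · refine pure_win (Or.inl rfl) ?_
      have h4 := sm_update isq h2 ρ none
      rw [ho, show sm isq M.1.length ρ = 1 from hnq] at h4
      have h5 : nq M.1.length (Function.update ρ j'' none) = 1 := by
        show sm isq M.1.length (Function.update ρ j'' none) = 1
        simpa [isq] using h4
      rw [h5]
      simp [ce]
    · exfalso
      by_cases h4 : j'' = j'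
      · subst h4
        rw [hρj'] at ho
        simp at ho
      · rw [hρo _ hne2 h4] at ho
        have := cf_eq ho
        simp at this
    · rw [← hjdef] at ho
      rw [hρj] at ho
      simp at ho
  | @rg _ i' y y' _ hi' h3 ho hc =>
    by_cases h4 : i' = j
    · rw [h4] at ho hi' ⊢
      rw [hρj] at ho
      have hy := Option.some.inj ho
      subst hy
      refine hchk _ (by rw [Function.update_of_ne hne, hρj']) ?_
      have h5 := sm_update isq hi' ρ (some y')
      rw [hρj, show sm isq M.1.length ρ = 1 from hnq] at h5
      have h6 : isq (some y') = 0 := by cases y' <;> simp_all [radj, isq]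
      have h7 : nq M.1.length (Function.update ρ j (some y')) = 0 := by
        show sm isq M.1.length (Function.update ρ j (some y')) = 0
        rw [h6] at h5
        simpa [isq] using h5
      rw [h7]
    · by_cases h5 : i' = j'
      · rw [h5, hρj'] at ho
        have hy := Option.some.inj ho
        subst hy
        cases y' <;> simp [radj] at h3
      · have ho' := ho
        rw [hρo _ h4 h5] at ho'
        have hy := cf_eq ho'
        subst hy
        have hy' : y' = .q := by cases y' <;> simp_all [radj]
        subst hy'
        refine hchk _ (by rw [Function.update_of_ne (Ne.symm h5), hρj']) ?_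
        have h6 := sm_update isq hi' ρ (some .q)
        rw [ho, show sm isq M.1.length ρ = 1 from hnq] at h6
        have h7 : nq M.1.length (Function.update ρ i' (some .q)) = 2 := by
          show sm isq M.1.length (Function.update ρ i' (some .q)) = 2
          simpa [isq] using h6
        rw [h7]

/-- the lifted register at `S`, the next player has to set it -/
theorem lose_S {σ : ℕ → Bool} (hM : ARMPr M) (h : ok3 M r i k = true) (h0 : 0 < k)
    (hS : N M (some (.S r i k), cf M (Function.update σ (up M r i k).1 (up M r i k).2))) :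
    P M (some (.S r i k), lf M σ (up M r i k).1) := by
  have hj := up_lt hM h h0
  refine .lose fun s' hs' => ?_
  rcases step_lf (v := .S r i k) rfl (okS h h0) hj (fun j' y _ hh => unS σ j' y hh) rfl rfl hs' with
    h1 | ⟨v', h1, h2, h3, rfl⟩ | ⟨b, rfl⟩ | ⟨j', h1, h2, rfl⟩
  · exact h1
  · have := ctrl_S h1 h3
    subst this
    exact win_e1 h2 rfl (by rw [nq_lf hj])
  · by_cases hb : b = (up M r i k).2
    · rw [hb]
      exact hS
    · exact wrong hM h h0 (by simpa using hb)
  · have h3 := kill (M := M) (c := some (.S r i k)) (ρ := Function.update (lf M σ (up M r i k).1) j'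
      (some .q)) h1 (Function.update_self ..) (by simp)
    refine .win h3.1 ?_
    rw [Function.update_idem]
    exact dead hM h h0 h1 h2

/-- the register can be lifted at `U` -/
theorem lose_U {σ : ℕ → Bool} (hM : ARMPr M) (h : ok3 M r i k = true) (h0 : 0 < k)
    (hS : N M (some (.S r i k), cf M (Function.update σ (up M r i k).1 (up M r i k).2))) :
    P M (some (.U r i k), cf M σ) := by
  have hj := up_lt hM h h0
  refine .lose fun s' hs' => ?_
  rcases step_cf (v := .U r i k) rfl (okU h h0) (fun j' y _ hh => unU' σ j' y hh) hs' with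
    h1 | ⟨v', h1, h2, h3, rfl⟩ | ⟨j', h1, rfl⟩
  · exact h1
  · have := ctrl_U h1 h3
    subst this
    by_cases hb : σ (up M r i k).1 = (up M r i k).2
    · rw [← hb, Function.update_eq_self] at hS
      exact hS
    · exact wrong hM h h0 hb
  · by_cases hjj : j' = (up M r i k).1
    · subst hjj
      refine .win (q := (some (.S r i k), lf M σ (up M r i k).1))
        (.ctl (okU h h0) (okS h h0) (by simp [cadj]) (fun j y hh => by simp at hh)) ?_
      exact lose_S hM h h0 hS
    · refine win_cap (j := j') (y := .q) (okU h h0) h1 (by simp [cadj, hjj]) lf_self ?_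
      rw [nq_lf h1]
      simp [isq]

theorem chain (hM : ARMPr M) {σ : ℕ → Bool} (h : ok3 M r i k = true)
    (hX : N M (some (.X r i 0), cf M (upd σ ((us M r i).take k)))) :
    N M (some (.X r i k), cf M σ) := by
  induction k generalizing σ with
  | zero =>
    rw [List.take_zero, upd_nil] at hX
    exact hX
  | succ k ih =>
    have h0 : 0 < k + 1 := Nat.succ_pos k
    have hk := ok3_pred h
    rw [upd_take h h0, Nat.add_sub_cancel] at hX
    have h1 := ih hk hX
    -- the vertex `Z`
    have h2 : P M (some (.Z r i (k + 1)),
        cf M (Function.update σ (up M r i (k + 1)).1 (up M r i (k + 1)).2)) := by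
      refine .lose fun s' hs' => ?_
      rcases step_plain (v := .Z r i (k + 1)) rfl (okZ h h0) rfl
        (fun j y _ hh => by simp [cadj] at hh) hs' with h3 | ⟨v', h3, h4, h5, rfl⟩
      · exact h3
      · obtain ⟨k', h6, rfl⟩ := ctrl_Z h3 h5
        have h7 : k' = k := by omega
        subst h7
        exact h1
    have h3 : N M (some (.S r i (k + 1)),
        cf M (Function.update σ (up M r i (k + 1)).1 (up M r i (k + 1)).2)) :=
      .win (.ctl (okS h h0) (okZ h h0) (by simp [cadj]) (fun j y hh => by simp at hh)) h2
    exact .win (.ctl (v' := .U r i (k + 1)) (by simpa [ok] using h) (okU h h0) (by simp [cadj])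
      (fun j y hh => by simp at hh)) (lose_U hM h h0 h3)

end upd

theorem ok_R {r : ℕ} (h : r < M.2.2.length) : ok M (.R r) = true := by simpa [ok] using h

theorem acc (hM : ARMPr M) {c : ℕ} {ρ : ℕ → Bool} (h : Der M.2.2 c ρ) : ∀ v : V,
    (v = .G ∧ c = M.2.1) ∨ (∃ r i, v = .X r i 0 ∧ ok3 M r i 0 = true ∧ c = (pm M r i).1) →
    N M (some v, cf M ρ) := by
  induction h with
  | mk rule ρ hr hg hp ih =>
    intro v hv
    obtain ⟨r, hr1, hr2⟩ := List.getElem_of_mem hr
    have hrl : rl M r = rule := by
      unfold rl
      rw [List.getD_eq_getElem _ _ hr1, hr2]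
    have hun : ∀ j y, j < M.1.length → cadj M (.R r) (.reg j y) = true → cf M ρ j ≠ some y := by
      intro j y hj hh h9
      obtain ⟨b, rfl, hb⟩ := reg_R hh
      have h10 := cf_eq h9
      have h11 := hg _ (by rw [← hrl]; exact hb)
      simp only at h11
      rw [h11] at h10
      simp at h10
    have hlose : P M (some (.R r), cf M ρ) := by
      refine .lose fun s' hs' => ?_
      rcases step_plain (v := .R r) rfl (ok_R hr1) rfl hun hs' with h3 | ⟨v', h3, h4, h5, rfl⟩
      · exact h3
      · obtain ⟨i, rfl⟩ := ctrl_R h3 h5
        have h6 : ok3 M r i (us M r i).length = true := by simpa [ok] using h4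
        have h6' := ok3_iff.1 h6
        have h7 : pm M r i ∈ rule.2.2 := by
          rw [← hrl]
          exact pm_mem h6'.2.1
        refine chain hM h6 ?_
        rw [List.take_length]
        exact ih _ h7 _ (Or.inr ⟨r, i, rfl, by rw [ok3_iff]; omega, rfl⟩)
    rcases hv with ⟨rfl, hc⟩ | ⟨r', i', rfl, hk, hc⟩
    · exact .win (.ctl (v' := .R r) rfl (ok_R hr1) (by simp [cadj, hrl, hc])
        (fun j y hh => by simp at hh)) hlose
    · exact .win (.ctl (v' := .R r) (by simpa [ok] using hk) (ok_R hr1) (by simp [cadj, hrl, hc])
        (fun j y hh => by simp at hh)) hlose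

end Pool.Agent.NPC.ANN
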